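import Pool.Agent.Lib.helper7.Mag
import Pool.Agent.Lib.helper7.Perron

namespace Pool.Agent.H.MP_8e2f96_co

open Classical Finset Matrix Pool.Agent.Lib.helper7

variable {V : Type} [Fintype V] {G : SimpleGraph V}

lemma sum_lap (y : V → ℝ) : ∑ x, (G.lapMatrix ℝ *ᵥ y) x = 0 := by
  have h1 : (fun _ => (1 : ℝ)) ⬝ᵥ (G.lapMatrix ℝ *ᵥ y) = 0 := by
    rw [dotProduct_mulVec, ← mulVec_transpose, (G.isSymm_lapMatrix ℝ).eq,
      G.lapMatrix_mulVec_const_eq_zero]
    simp
  simpa [dotProduct] using h1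

lemma gap (hc : G.Connected) (f : V → ℝ) (hf : f ≠ 0) (h0 : ∑ x, f x = 0) (R : ℝ)
    (h : f ⬝ᵥ (G.lapMatrix ℝ *ᵥ f) ≤ R * (f ⬝ᵥ f)) :
    ∃ t ∈ spectrum ℝ (G.lapMatrix ℝ), t ≠ 0 ∧ t ≤ R := by
  let J : Matrix V V ℝ := Matrix.of fun _ _ => |R| + 1
  have hJ : ∀ g : V → ℝ, J *ᵥ g = fun _ => (|R| + 1) * ∑ x, g x := by
    intro g; ext x; simp [J, mulVec, dotProduct, Finset.mul_sum]
  have hH : (-(G.lapMatrix ℝ + J)).IsHermitian :=
    ((G.isHermitian_lapMatrix ℝ).add (by ext x y; simp [J])).neg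
  obtain ⟨l, hl, hR⟩ := Perron.exists_ge hH hf (c := -R) (by
    rw [neg_mulVec, add_mulVec, hJ, h0, dotProduct_neg, dotProduct_add]
    simp only [dotProduct, mul_zero, sum_const_zero] at h ⊢
    linarith)
  obtain ⟨y, hy, e⟩ := Perron.exists_eigvec hl
  rw [neg_mulVec, add_mulVec, hJ] at e
  have s1 := congrArg (fun g : V → ℝ => ∑ x, g x) e
  simp only [Pi.neg_apply, Pi.add_apply, sum_neg_distrib, sum_add_distrib, sum_lap, Pi.smul_apply,
    smul_eq_mul, ← Finset.mul_sum, sum_const, card_univ, nsmul_eq_mul] at s1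
  have := hc.nonempty
  have hn : (1 : ℝ) ≤ Fintype.card V := by exact_mod_cast Fintype.card_pos
  have s2 : ∑ x, y x = 0 := by
    by_contra hs
    have : (l + Fintype.card V * (|R| + 1)) * ∑ x, y x = 0 := by linarith
    have := (mul_eq_zero.1 this).resolve_right hs
    nlinarith [le_abs_self R, abs_nonneg R]
  have e2 : G.lapMatrix ℝ *ᵥ y = (-l) • y := by
    ext x
    have := congrFun e x
    simp only [s2, Pi.neg_apply, Pi.add_apply, Pi.smul_apply, smul_eq_mul] at this ⊢
    linarith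
  refine ⟨-l, ?_, fun hl0 => hy ?_, by linarith⟩
  · rw [spectrum.mem_iff, Matrix.isUnit_iff_isUnit_det, isUnit_iff_ne_zero, not_not,
      ← Matrix.exists_mulVec_eq_zero_iff]
    refine ⟨y, hy, ?_⟩
    rw [Matrix.sub_mulVec, Algebra.algebraMap_eq_smul_one, Matrix.smul_mulVec, Matrix.one_mulVec,
      e2, sub_self]
  · rw [hl0, zero_smul, SimpleGraph.lapMatrix_mulVec_eq_zero_iff_forall_reachable] at e2
    ext x
    rw [sum_congr rfl fun z _ => e2 z x (hc.preconnected z x), sum_const, card_univ,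
      nsmul_eq_mul] at s2
    exact (mul_eq_zero.1 s2).resolve_left (by linarith)

lemma deg_test (hc : G.Connected) (v w : V) (hw : v ≠ w) :
    ∃ t ∈ spectrum ℝ (G.lapMatrix ℝ), t ≠ 0 ∧ t ≤ 2 * G.degree v := by
  obtain ⟨n, hn⟩ : ∃ n : ℝ, n = Fintype.card V := ⟨_, rfl⟩
  have h2 : 2 ≤ n := by
    rw [hn]; exact_mod_cast Fintype.one_lt_card_iff.2 ⟨v, w, hw⟩
  refine gap hc (n • Pi.single v 1 - fun _ => 1) (fun h => ?_) ?_ _ ?_
  · simpa [hw.symm] using congrFun h w
  · simp [sum_sub_distrib, ← Finset.mul_sum, hn]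
  · have a : (fun _ => (1 : ℝ)) ⬝ᵥ (G.lapMatrix ℝ *ᵥ Pi.single v 1) = 0 := by
      simpa [dotProduct] using sum_lap (G := G) (Pi.single v 1)
    have b : (Pi.single v 1 : V → ℝ) ⬝ᵥ (G.lapMatrix ℝ *ᵥ Pi.single v 1) = G.degree v := by
      simp [SimpleGraph.lapMatrix, SimpleGraph.degMatrix]
    have c : (fun _ : V => (1 : ℝ)) ⬝ᵥ (fun _ => 1) = n := by simp [dotProduct, hn]
    rw [mulVec_sub, mulVec_smul, G.lapMatrix_mulVec_const_eq_zero, sub_zero]
    simp only [sub_dotProduct, dotProduct_sub, smul_dotProduct, dotProduct_smul, a, b, c,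
      smul_eq_mul, single_dotProduct, dotProduct_single, Pi.single_eq_same, Pi.sub_apply,
      Pi.smul_apply]
    have : (0 : ℝ) ≤ G.degree v * (n * (n - 2)) := by
      have : 0 ≤ n - 2 := by linarith
      positivity
    nlinarith

lemma path_test (hc : G.Connected) {x s : V} (p : G.Walk x s) (hp : p.IsPath) (D : ℕ)
    (hD : p.length = D) (h3 : 3 ≤ D) (h2 : ∀ i, 0 < i → i < D → G.degree (p.getVert i) = 2) :
    ∃ t ∈ spectrum ℝ (G.lapMatrix ℝ), t ≠ 0 ∧ t ≤ 40 / (D : ℝ) ^ 2 := by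
  have d3 : (3 : ℝ) ≤ D := by exact_mod_cast h3
  obtain ⟨θ, hθ⟩ : ∃ θ : ℝ, θ = 2 * Real.pi / D := ⟨_, rfl⟩
  have hθ' : D * θ = 2 * Real.pi := by rw [hθ]; field_simp
  have inj : ∀ i ≤ D, ∀ j ≤ D, p.getVert i = p.getVert j → i = j := fun i hi j hj h =>
    hp.getVert_injOn (show i ≤ p.length by omega) (show j ≤ p.length by omega) h
  let f : V → ℝ := fun y => ∑ i ∈ range (D + 1), if p.getVert i = y then Real.sin (i * θ) else 0
  have fv : ∀ j ≤ D, f (p.getVert j) = Real.sin (j * θ) := by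
    intro j hj
    simp only [f]
    rw [sum_eq_single j (fun i hi hij => if_neg fun h =>
      hij (inj i (by simp at hi; omega) j hj h)) (by simp; omega), if_pos rfl]
  have pt : ∀ y, f y * (G.lapMatrix ℝ *ᵥ f) y = (2 - 2 * Real.cos θ) * (f y * f y) := by
    intro y
    by_cases hy : ∃ j, j + 1 < D ∧ p.getVert (j + 1) = y
    · obtain ⟨j, hj, rfl⟩ := hy
      have ne : p.getVert j ≠ p.getVert (j + 2) := fun h => by
        have := inj j (by omega) (j + 2) (by omega) h
        omega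
      have hN : {p.getVert j, p.getVert (j + 2)} = G.neighborFinset (p.getVert (j + 1)) := by
        refine eq_of_subset_of_card_le (fun z hz => ?_) ?_
        · rcases mem_insert.1 hz with rfl | hz
          · simpa using (p.adj_getVert_succ (i := j) (by omega)).symm
          · rw [mem_singleton.1 hz]
            simpa using p.adj_getVert_succ (i := j + 1) (by omega)
        · rw [card_pair ne, SimpleGraph.card_neighborFinset_eq_degree, h2 _ (by omega) hj]
      rw [SimpleGraph.lapMatrix_mulVec_apply, ← hN, sum_pair ne, h2 _ (by omega) hj,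
        fv j (by omega), fv (j + 1) (by omega), fv (j + 2) (by omega)]
      have e1 : (j : ℝ) * θ = ((j + 1 : ℕ) : ℝ) * θ - θ := by push_cast; ring
      have e2 : ((j + 2 : ℕ) : ℝ) * θ = ((j + 1 : ℕ) : ℝ) * θ + θ := by push_cast; ring
      rw [e1, e2, Real.sin_sub, Real.sin_add]
      push_cast; ring
    · have : f y = 0 := sum_eq_zero fun i hi => by
        split_ifs with h
        · rcases i with _ | j
          · simp
          · have : j + 1 = D := by
              by_contra hn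
              exact hy ⟨j, by simp at hi; omega, h⟩
            rw [this, hθ', Real.sin_two_pi]
        · rfl
      simp [this]
  have pi0 := Real.pi_pos
  refine gap hc f (fun h => ?_) ?_ _ ?_
  · have a := fv 1 (by omega)
    have : 0 < Real.sin θ := Real.sin_pos_of_pos_of_lt_pi (by rw [hθ]; positivity)
      (by rw [hθ, div_lt_iff₀ (by linarith)]; nlinarith)
    rw [h] at a
    simp at a
    linarith
  · simp only [f]
    rw [sum_comm]
    simp only [sum_ite_eq, mem_univ, if_true]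
    have a := sum_range_reflect (fun i => Real.sin (i * θ)) (D + 1)
    rw [sum_congr rfl (g := fun i : ℕ => -Real.sin (i * θ)) fun i hi => by
      have : ((D + 1 - 1 - i : ℕ) : ℝ) * θ = 2 * Real.pi - i * θ := by
        rw [Nat.add_sub_cancel, Nat.cast_sub (by simp at hi; omega), sub_mul, hθ']
      rw [this, Real.sin_two_pi_sub], sum_neg_distrib] at a
    linarith
  · have a : f ⬝ᵥ (G.lapMatrix ℝ *ᵥ f) = (2 - 2 * Real.cos θ) * (f ⬝ᵥ f) := by
      simp only [dotProduct, pt, Finset.mul_sum]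
    rw [a]
    refine mul_le_mul_of_nonneg_right ?_ (sum_nonneg fun x _ => mul_self_nonneg _)
    have b := Real.one_sub_sq_div_two_le_cos (x := θ)
    have c : θ ^ 2 ≤ 40 / (D : ℝ) ^ 2 := by
      rw [le_div_iff₀ (by positivity), ← mul_pow, mul_comm, hθ']
      nlinarith [Real.pi_lt_d2]
    linarith

omit [Fintype V] in
lemma exists_dl (hc : G.Connected) (S : Set V) (o : V) (ho : o ∈ S) : ∃ δ : V → ℕ,
    (∀ x, x ∉ S → ∃ y, G.Adj x y ∧ δ y < δ x) ∧
    ∀ x, ∃ s, ∃ p : G.Walk x s, p.IsPath ∧ p.length = δ x ∧ ∀ i < δ x, p.getVert i ∉ S := by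
  let δ : V → ℕ := fun x => sInf {k | ∃ s ∈ S, ∃ p : G.Walk x s, p.length = k}
  have le : ∀ x s, s ∈ S → ∀ p : G.Walk x s, δ x ≤ p.length := fun x s hs p =>
    Nat.sInf_le ⟨s, hs, p, rfl⟩
  have att : ∀ x, ∃ s ∈ S, ∃ p : G.Walk x s, p.length = δ x := fun x => by
    obtain ⟨p⟩ := hc.preconnected x o
    exact Nat.sInf_mem (s := {k | ∃ s ∈ S, ∃ p : G.Walk x s, p.length = k}) ⟨_, o, ho, p, rfl⟩
  refine ⟨δ, fun x hx => ?_, fun x => ?_⟩
  · obtain ⟨s, hs, p, hp⟩ := att x
    cases p with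
    | nil => exact absurd hs hx
    | cons h q =>
      have := le _ s hs q
      simp at hp
      exact ⟨_, h, by omega⟩
  · obtain ⟨s, hs, p, hp⟩ := att x
    have a := le x s hs p.bypass
    have b := p.length_bypass_le_length
    refine ⟨s, p.bypass, p.bypass_isPath, by omega, fun i hi h => ?_⟩
    have := le x _ h (p.bypass.take i)
    rw [SimpleGraph.Walk.take_length] at this
    omega

omit [Fintype V] in
lemma sum_le (A : Finset V) (f : V → ℝ) (b k : ℝ) (hb : 0 ≤ b) (h : ∀ w ∈ A, f w ≤ b)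
    (hk : A.card ≤ k) : ∑ w ∈ A, f w ≤ k * b :=
  (sum_le_card_nsmul _ _ _ h).trans (by
    rw [nsmul_eq_mul]; exact mul_le_mul_of_nonneg_right hk hb)

lemma card1 {v u : V} (o : V) (ha : G.Adj v u) :
    ((((G.neighborFinset u).erase v).erase o).card : ℝ) ≤ G.degree u - 1 := by
  have b := card_erase_add_one (show v ∈ G.neighborFinset u by simpa using ha.symm)
  rw [SimpleGraph.card_neighborFinset_eq_degree] at b
  rw [← b]; push_cast
  have : ((((G.neighborFinset u).erase v).erase o).card : ℝ) ≤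
    ((G.neighborFinset u).erase v).card := by exact_mod_cast card_erase_le
  linarith

lemma big (o : V) (d : ℕ) (hd : 3 ≤ d) (h : ∀ x, d ≤ G.degree x) : (d : ℝ) / 18 ≤ Mag.nu G := by
  have h3 : (3 : ℝ) ≤ d := by exact_mod_cast hd
  refine Mag.le_nu G _ o (fun _ _ => 3 / 2) (fun _ _ _ => by norm_num) (fun v u ha _ => ?_)
    fun u => ?_
  · have a : (d : ℝ) ≤ G.degree u := by exact_mod_cast h u
    have := sum_le _ (fun _ => 1 / (3 / 2)) (2 / 3) _ (by norm_num) (by norm_num) (card1 o ha)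
    linarith
  · have a : (d : ℝ) ≤ G.degree u := by exact_mod_cast h u
    have := sum_le ((G.neighborFinset u).erase o) (fun _ => 1 / (3 / 2)) (2 / 3) (G.degree u)
      (by norm_num) (by norm_num) (by exact_mod_cast card_erase_le)
    linarith

lemma small (o : V) (h : ∀ x, 2 ≤ G.degree x) (δ : V → ℕ) (D : ℕ) (hD : ∀ x, δ x ≤ D)
    (hδ : ∀ x, x ≠ o → G.degree x = 2 → ∃ y, G.Adj x y ∧ δ y < δ x) :
    1 / (12 * D + 14 : ℝ) ^ 2 ≤ Mag.nu G := by
  let τ : V → V → ℕ := fun v u =>
    if δ u < δ v then δ u else if δ u = δ v then D + 1 else 2 * D + 2 - δ u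
  have hτ : ∀ v u, (τ v u : ℝ) ≤ 2 * D + 2 := by
    intro v u
    have := hD u
    have : τ v u ≤ 2 * D + 2 := by simp only [τ]; split_ifs <;> omega
    exact_mod_cast this
  have d0 : (0 : ℝ) ≤ D := Nat.cast_nonneg D
  have inv : ∀ t b : ℝ, 0 ≤ t → t ≤ b →
      1 / (1 + 1 / (8 * D + 10 + 2 * t)) ≤ 1 - 1 / (8 * D + 11 + 2 * b : ℝ) := by
    intro t b h0 h1
    have : 1 / (1 + 1 / (8 * D + 10 + 2 * t)) = 1 - 1 / (8 * D + 11 + 2 * t : ℝ) := by
      field_simp; ring
    rw [this]
    have := one_div_le_one_div_of_le (a := 8 * D + 11 + 2 * t) (b := 8 * D + 11 + 2 * b)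
      (by linarith) (by linarith)
    linarith
  have e1 : (8 * D + 11 + 2 * (2 * D + 2) : ℝ) = 12 * D + 15 := by ring
  have b0 : (0 : ℝ) ≤ 1 - 1 / (12 * D + 15) := by
    rw [sub_nonneg, div_le_one (by linarith)]; linarith
  have q0 : (0 : ℝ) < 1 / (12 * D + 15) := by positivity
  have k1 : 1 / (8 * D + 10 : ℝ) + 1 / (12 * D + 14 : ℝ) ^ 2 ≤ 2 * (1 / (12 * D + 15)) := by
    rw [mul_one_div, div_add_div _ _ (by positivity) (by positivity),
      div_le_div_iff₀ (by positivity) (by positivity)]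
    nlinarith [pow_nonneg d0 2, pow_nonneg d0 3]
  have q1 : (0 : ℝ) < 1 / (8 * D + 10) := by positivity
  refine Mag.le_nu G _ o (fun v u => 1 + 1 / (8 * D + 10 + 2 * τ v u))
    (fun _ _ _ => by positivity) (fun v u ha hu => ?_) fun u => ?_
  · have t0 : (0 : ℝ) ≤ τ v u := Nat.cast_nonneg _
    by_cases h2 : G.degree u = 2
    · obtain ⟨y, hy, hy'⟩ := hδ u hu h2
      have hc := card1 o ha
      rw [h2] at hc ⊢
      have lt : ∀ w ∈ ((G.neighborFinset u).erase v).erase o, τ u w + 1 ≤ τ v u := by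
        intro w hw
        have hw' := mem_of_mem_erase hw
        have a := hD u
        have b := hD w
        by_cases hv : δ v < δ u
        · simp only [τ]; split_ifs <;> omega
        · have c := card_erase_add_one (show v ∈ G.neighborFinset u by simpa using ha.symm)
          rw [SimpleGraph.card_neighborFinset_eq_degree, h2] at c
          have : w = y := card_le_one.1 (by omega) w hw' y
            (mem_erase.2 ⟨by rintro rfl; exact hv hy', by simpa using hy⟩)
          subst this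
          simp only [τ]; split_ifs <;> omega
      have b1 : (0 : ℝ) ≤ 1 - 1 / (8 * D + 11 + 2 * (τ v u - 1)) := by
        rw [sub_nonneg, div_le_one (by linarith)]; linarith
      have := sum_le _ (fun w => 1 / (1 + 1 / (8 * D + 10 + 2 * τ u w : ℝ))) _ _ b1
        (fun w hw => inv _ _ (Nat.cast_nonneg _) (by
          have : (τ u w + 1 : ℝ) ≤ τ v u := by exact_mod_cast lt w hw
          linarith)) hc
      have k2 : 1 / (8 * D + 10 + 2 * τ v u : ℝ) + 1 / (12 * D + 14 : ℝ) ^ 2 ≤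
          1 / (8 * D + 11 + 2 * (τ v u - 1)) := by
        have := hτ v u
        generalize (τ v u : ℝ) = t at *
        have p1 : (0 : ℝ) < 8 * D + 11 + 2 * (t - 1) := by linarith
        have : 1 / (8 * D + 11 + 2 * (t - 1) : ℝ) = 1 / (8 * D + 10 + 2 * t) +
            1 / ((8 * D + 10 + 2 * t) * (8 * D + 11 + 2 * (t - 1))) := by
          field_simp; ring
        rw [this]
        have := one_div_le_one_div_of_le (b := (12 * D + 14 : ℝ) ^ 2)
          (a := (8 * D + 10 + 2 * t) * (8 * D + 11 + 2 * (t - 1))) (by positivity) (by nlinarith)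
        linarith
      push_cast at this ⊢
      linarith
    · have a : (3 : ℝ) ≤ G.degree u := by
        have := h u
        exact_mod_cast (by omega : 3 ≤ G.degree u)
      have := sum_le _ (fun w => 1 / (1 + 1 / (8 * D + 10 + 2 * τ u w : ℝ))) _ _ b0
        (fun w _ => by simpa only [e1] using inv _ _ (Nat.cast_nonneg _) (hτ u w)) (card1 o ha)
      have b := one_div_le_one_div_of_le (a := (8 * D + 10 : ℝ)) (b := 8 * D + 10 + 2 * τ v u)
        (by linarith) (by linarith)
      nlinarith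
  · have a : (2 : ℝ) ≤ G.degree u := by exact_mod_cast h u
    have := sum_le ((G.neighborFinset u).erase o)
      (fun w => 1 / (1 + 1 / (8 * D + 10 + 2 * τ u w : ℝ))) _ (G.degree u) b0
      (fun w _ => by simpa only [e1] using inv _ _ (Nat.cast_nonneg _) (hτ u w))
      (by exact_mod_cast card_erase_le)
    nlinarith

theorem main (hc : G.Connected) (h : ∀ x, 2 ≤ G.degree x) :
    ∃ t ∈ spectrum ℝ (G.lapMatrix ℝ), t ≠ 0 ∧ t ≤ 12000 * Mag.nu G := by
  have := hc.nonempty
  obtain ⟨o, -, ho⟩ := exists_min_image univ (fun x => G.degree x) univ_nonempty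
  obtain ⟨w, hw⟩ := (G.degree_pos_iff_exists_adj o).1 (by have := h o; omega)
  obtain ⟨t, ht, t0, t1⟩ := deg_test hc o w hw.ne
  by_cases h3 : 3 ≤ G.degree o
  · have := big o _ h3 fun x => ho x (mem_univ x)
    have a : (0 : ℝ) ≤ G.degree o := Nat.cast_nonneg _
    exact ⟨t, ht, t0, by linarith⟩
  obtain ⟨δ, h1, h2⟩ := exists_dl hc {x | x = o ∨ G.degree x ≠ 2} o (Or.inl rfl)
  obtain ⟨x, -, hx⟩ := exists_max_image univ δ univ_nonempty
  have k := small o h δ (δ x) (fun y => hx y (mem_univ y)) fun y a b => h1 y (by simp [a, b])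
  have d0 : (0 : ℝ) ≤ δ x := Nat.cast_nonneg _
  by_cases hD : 3 ≤ δ x
  · obtain ⟨s, p, p1, p2, p3⟩ := h2 x
    obtain ⟨t, ht, t0, t1⟩ := path_test hc p p1 _ p2 hD fun i _ hi => by
      have := p3 i hi
      simp only [Set.mem_ofPred_eq, not_or, not_not] at this
      exact this.2
    have d3 : (3 : ℝ) ≤ δ x := by exact_mod_cast hD
    refine ⟨t, ht, t0, t1.trans (le_trans ?_ (mul_le_mul_of_nonneg_left k (by norm_num)))⟩
    rw [mul_one_div, div_le_div_iff₀ (by positivity) (by positivity)]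
    nlinarith
  · have d2 : (δ x : ℝ) ≤ 2 := by exact_mod_cast (by omega : δ x ≤ 2)
    have a : (G.degree o : ℝ) ≤ 2 := by exact_mod_cast (by omega : G.degree o ≤ 2)
    refine ⟨t, ht, t0, t1.trans (le_trans ?_ (mul_le_mul_of_nonneg_left k (by norm_num)))⟩
    rw [mul_one_div, le_div_iff₀ (by positivity)]
    nlinarith

end Pool.Agent.H.MP_8e2f96_co
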